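import Pool.Agent.Y377.IL.StmB

/-!
# Project IL: algebraic dependence and algebraic extensions
-/

set_option autoImplicit false
set_option linter.all false

namespace Pool.Agent.Y261.IL

open MvPolynomial Cardinal

theorem trdeg_le_one {A : Type} [CommRing A] [Algebra ℂ A]
    (h : ∀ b c : A, ∃ P : MvPolynomial (Fin 2) ℂ, P ≠ 0 ∧ aeval ![b, c] P = 0) :
    Algebra.trdeg ℂ A ≤ 1 := by
  rw [Algebra.trdeg]
  refine ciSup_le' fun s => ?_
  obtain ⟨s, hs⟩ := s
  rw [Cardinal.le_one_iff_subsingleton]
  refine ⟨fun x y => ?_⟩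
  by_contra hxy
  obtain ⟨P, hP0, hP⟩ := h x y
  have h1 : AlgebraicIndependent ℂ (fun i : s => (i : A)) := hs
  have h2 := h1.comp ![x, y] (by
    intro i j hij
    fin_cases i <;> fin_cases j
    · rfl
    · exact absurd hij hxy
    · exact absurd hij.symm hxy
    · rfl)
  apply hP0
  apply (algebraicIndependent_iff.1 h2)
  rw [← hP]
  congr 2
  funext i
  fin_cases i <;> rfl

theorem t_TR : Pool.Agent.Y377.IL.S_TR := by
  intro K _ _ B hB a b ha hb
  by_contra hcon
  push Not at hcon
  have h1 : AlgebraicIndependent ℂ ![a, b] := by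
    rw [algebraicIndependent_iff]
    intro P hP
    by_contra h0
    exact hcon P h0 hP
  set A := Subalgebra.algebraicClosure B K with hA
  have h2 : Algebra.trdeg ℂ B ≤ 1 := by
    apply trdeg_le_one
    intro x y
    obtain ⟨P, hP0, hP⟩ := hB x x.2 y y.2
    refine ⟨P, hP0, ?_⟩
    apply Subtype.val_injective (p := fun x => x ∈ B)
    have e := MvPolynomial.aeval_algebraMap_apply (A := B) K ![x, y] P
    have e2 : (algebraMap B K ∘ ![x, y]) = ![(x : K), (y : K)] := by
      funext i
      fin_cases i <;> rfl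
    rw [e2, hP] at e
    exact e.symm
  haveI : Algebra.IsAlgebraic B A := by
    refine ⟨fun x => ?_⟩
    have hx : IsAlgebraic B (x : K) := x.2
    exact (isAlgebraic_algebraMap_iff (S := A) (A := K) (R := B) Subtype.val_injective).1 hx
  haveI i1 : FaithfulSMul ℂ B :=
    (faithfulSMul_iff_algebraMap_injective ℂ B).2 (algebraMap ℂ B).injective
  haveI i2 : FaithfulSMul B A := (faithfulSMul_iff_algebraMap_injective B A).2 fun x y hxy =>
    Subtype.val_injective (congrArg (Subtype.val : A → K) hxy)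
  have h3 : Algebra.trdeg ℂ A ≤ 1 := by
    have h0 : Algebra.trdeg B A = 0 := trdeg_eq_zero
    rw [← trdeg_add_eq ℂ B, h0, add_zero]
    exact h2
  have h4 : AlgebraicIndependent ℂ (![⟨a, ha⟩, ⟨b, hb⟩] : Fin 2 → A) := by
    apply AlgebraicIndependent.of_comp (A.val.restrictScalars ℂ)
    convert h1 using 1
    funext i
    fin_cases i <;> rfl
  have h5 := h4.cardinalMk_le_trdeg.trans h3
  rw [Cardinal.mk_fin] at h5
  norm_num at h5

end Pool.Agent.Y261.IL
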